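import Pool.Agent.Helper41.HP.PA

/-!
# Principal basis of a plane (piece MB-5)
-/

open Filter Metric Module Set
open scoped Topology ContDiff RealInnerProductSpace Manifold

set_option maxSynthPendingDepth 3

namespace Pool.Agent.Helper2.MB
open Pool.Agent.Helper41.HP

section
variable {V Y : Type*} [NormedAddCommGroup V] [NormedSpace ℝ V] [FiniteDimensional ℝ V]
  [NormedAddCommGroup Y] [NormedSpace ℝ Y] [FiniteDimensional ℝ Y]
  {y : Y}

/-- principal basis of a plane. -/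
theorem principalM (hV : 2 ≤ finrank ℝ V) (hY : 3 ≤ finrank ℝ Y) {Hf : V →L[ℝ] V →L[ℝ] ℝ}
    (Hs : ∀ u v, Hf u v = Hf v u) (Hp : ∀ u, u ≠ 0 → 0 < Hf u u) {k M : Y →L[ℝ] Y →L[ℝ] ℝ}
    (hy : k y y = 1) (Ms : ∀ p q, M p q = M q p) (Mp : ∀ p, k y p = 0 → p ≠ 0 → 0 < M p p)
    {δ : ℝ} (hδ : 0 < δ) {u v : V × Y} (hu : k y u.2 = 0) (hv : k y v.2 = 0)
    (huv : LinearIndependent ℝ ![u, v]) :
    ∃ (X Z : V) (U T : Y) (ca sa cb sb a b c d : ℝ), Hf X X = 1 ∧ Hf Z Z = 1 ∧ Hf X Z = 0 ∧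
      k y U = 0 ∧ k y T = 0 ∧ M U U = 1 ∧ M T T = 1 ∧ M U T = 0 ∧
      ca ^ 2 + sa ^ 2 = 1 ∧ cb ^ 2 + sb ^ 2 = 1 ∧ a * d - b * c ≠ 0 ∧
      u = a • ((ca • X, (sa / δ) • U) : V × Y) + b • ((cb • Z, (sb / δ) • T) : V × Y) ∧
      v = c • ((ca • X, (sa / δ) • U) : V × Y) + d • ((cb • Z, (sb / δ) • T) : V × Y) := by
  let K : Submodule ℝ Y := LinearMap.ker (k y : Y →ₗ[ℝ] ℝ)
  have hKm : ∀ w : K, k y (w : Y) = 0 := fun w => w.2
  let HL : V →ₗ[ℝ] V →ₗ[ℝ] ℝ := LinearMap.mk₂ ℝ (fun a b => Hf a b)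
    (fun a b c => by simp only [map_add, _root_.add_apply])
    (fun r a b => by simp only [map_smul, _root_.smul_apply, smul_eq_mul])
    (fun a b c => by simp only [map_add])
    (fun r a b => by simp only [map_smul, smul_eq_mul])
  let ML : K →ₗ[ℝ] K →ₗ[ℝ] ℝ := LinearMap.mk₂ ℝ (fun a b => M (a : Y) (b : Y))
    (fun a b c => by simp only [Submodule.coe_add, map_add, _root_.add_apply])
    (fun r a b => by simp only [Submodule.coe_smul, map_smul, _root_.smul_apply, smul_eq_mul])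
    (fun a b c => by simp only [Submodule.coe_add, map_add])
    (fun r a b => by simp only [Submodule.coe_smul, map_smul, smul_eq_mul])
  let AL : (V × K) →ₗ[ℝ] (V × K) →ₗ[ℝ] ℝ := HL.compl₁₂ (LinearMap.fst ℝ V K) (LinearMap.fst ℝ V K)
  let BL : (V × K) →ₗ[ℝ] (V × K) →ₗ[ℝ] ℝ := ML.compl₁₂ (LinearMap.snd ℝ V K) (LinearMap.snd ℝ V K)
  have hAL : ∀ a b : V × K, AL a b = Hf a.1 b.1 := fun _ _ => rfl
  have hBL : ∀ a b : V × K, BL a b = M (a.2 : Y) (b.2 : Y) := fun _ _ => rfl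
  have hG : ∀ a b : V × K, (AL + δ ^ 2 • BL) a b = Hf a.1 b.1 + δ ^ 2 * M (a.2 : Y) (b.2 : Y) :=
    fun _ _ => rfl
  have hMp : ∀ w : K, w ≠ 0 → 0 < M (w : Y) (w : Y) := fun w hw =>
    Mp w (hKm w) (fun h => hw (Subtype.ext h))
  have hδ2 : 0 < δ ^ 2 := by positivity
  let p : V × K := (u.1, ⟨u.2, hu⟩)
  let q : V × K := (v.1, ⟨v.2, hv⟩)
  let ι : (V × K) →ₗ[ℝ] V × Y := LinearMap.prodMap LinearMap.id K.subtype
  have hι : ∀ w : V × K, ι w = (w.1, (w.2 : Y)) := fun _ => rfl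
  have hli : LinearIndependent ℝ ![p, q] := by
    apply LinearIndependent.of_comp ι
    convert huv using 1
    ext i : 1
    fin_cases i <;> rfl
  obtain ⟨e1, e2, a, b, c, d, -, -, -, -, h11, h22, h12, hA, hdet, hpe, hqe, -, -⟩ :=
    simul_diag (AL + δ ^ 2 • BL) AL
      (fun a b => by rw [hG, hG, Hs a.1 b.1, Ms (a.2 : Y) (b.2 : Y)])
      (fun a b => by rw [hAL, hAL, Hs])
      (fun a ha => by
        rw [hG]
        by_cases h1 : a.1 = 0
        · have h2 : a.2 ≠ 0 := fun h2 => ha (Prod.ext h1 h2)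
          have h3 := mul_pos hδ2 (hMp _ h2)
          rw [h1, map_zero]
          simpa using h3
        · have h2 : 0 ≤ M (a.2 : Y) (a.2 : Y) := by
            by_cases h3 : a.2 = 0
            · rw [h3]
              simp
            · exact (hMp _ h3).le
          have h3 := Hp _ h1
          have h4 := mul_nonneg hδ2.le h2
          linarith) hli
  rw [hG] at h11 h22 h12
  rw [hAL] at hA
  have hMe : M (e1.2 : Y) (e2.2 : Y) = 0 := by
    rw [hA, zero_add] at h12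
    exact (mul_eq_zero.mp h12).resolve_left hδ2.ne'
  have hK : 1 < finrank ℝ K := by
    have h1 := LinearMap.finrank_range_add_finrank_ker (k y : Y →ₗ[ℝ] ℝ)
    have h2 : finrank ℝ (LinearMap.range (k y : Y →ₗ[ℝ] ℝ)) ≤ 1 := by
      refine (Submodule.finrank_le _).trans ?_
      simp
    have h3 : finrank ℝ K = finrank ℝ (LinearMap.ker (k y : Y →ₗ[ℝ] ℝ)) := rfl
    omega
  obtain ⟨X, Z, ca, cb, hX, hZ, hXZ, hca, hcb⟩ := exists_orth (by omega) HL
    (fun a b => Hs a b) (fun a ha => Hp a ha) (w1 := e1.1) (w2 := e2.1) hA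
  obtain ⟨U, T, sa, sb, hU, hT, hUT, hsa, hsb⟩ := exists_orth hK ML
    (fun a b => Ms _ _) hMp (w1 := e1.2) (w2 := e2.2) hMe
  have hX' : Hf X X = 1 := hX
  have hZ' : Hf Z Z = 1 := hZ
  have hU' : M (U : Y) (U : Y) = 1 := hU
  have hT' : M (T : Y) (T : Y) = 1 := hT
  have hse : ∀ s : ℝ, δ * s / δ = s := fun s => by field_simp
  have hE1 : (e1.1, (e1.2 : Y)) = ((ca • X, (δ * sa / δ) • (U : Y)) : V × Y) := by
    rw [hse, hca, hsa]
    rfl
  have hE2 : (e2.1, (e2.2 : Y)) = ((cb • Z, (δ * sb / δ) • (T : Y)) : V × Y) := by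
    rw [hse, hcb, hsb]
    rfl
  refine ⟨X, Z, U, T, ca, δ * sa, cb, δ * sb, a, b, c, d, hX', hZ', hXZ, hKm U, hKm T, hU', hT',
    hUT, ?_, ?_, hdet, ?_, ?_⟩
  · rw [hca, hsa] at h11
    simp only [Submodule.coe_smul, map_smul, _root_.smul_apply, smul_eq_mul, hX', hU'] at h11
    linear_combination h11
  · rw [hcb, hsb] at h22
    simp only [Submodule.coe_smul, map_smul, _root_.smul_apply, smul_eq_mul, hZ', hT'] at h22
    linear_combination h22
  · rw [← hE1, ← hE2]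
    have h := congrArg ι hpe
    rw [map_add, map_smul, map_smul] at h
    exact h
  · rw [← hE1, ← hE2]
    have h := congrArg ι hqe
    rw [map_add, map_smul, map_smul] at h
    exact h

end

end Pool.Agent.Helper2.MB
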